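import Pool.Agent.W70.HR.Stm
import Pool.Agent.H387R2.U2

/-!
# Project HR, part FIN : the final theorem
-/

set_option autoImplicit false

open Finset

namespace Pool.Agent.W880.HR

open Pool.Agent.W70.HR
open Pool.Agent.H361R2.PP

theorem fin : S_AVG → S_CTB → S_FIN := by
  classical
  intro hAVG hCTB k Λ η ε hη hε
  rcases le_or_gt Λ 0 with hΛ | hΛ
  · refine ⟨1, one_pos, 2, fun X hX A hA hcard => ?_⟩
    exfalso
    have hX1 : (1 : ℝ) < X := by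
      have : (2 : ℝ) ≤ X := by exact_mod_cast hX
      linarith
    have hL : 0 < Real.log X := Real.log_pos hX1
    have h1 : (0 : ℝ) < A.card := lt_of_lt_of_le (mul_pos hη hL) hcard
    have h2 : 0 < A.card := by exact_mod_cast h1
    obtain ⟨a, ha⟩ := card_pos.1 h2
    obtain ⟨h3, h4⟩ := hA a ha
    have h5 : (1 : ℝ) ≤ a := by exact_mod_cast h3
    nlinarith
  obtain ⟨s, hs0, hs1, hs2⟩ : ∃ s : ℝ, 0 < s ∧ s ≤ 1 / 4 ∧ s ≤ ε / 4 :=
    ⟨min (1 / 4) (ε / 4), by positivity, min_le_left _ _, min_le_right _ _⟩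
  obtain ⟨X1, hX1⟩ := hCTB (k + 1) Λ s hΛ hs0
  obtain ⟨δ0, hδ0, X2, hX2⟩ := hAVG k Λ η (ε / 2) hΛ hη (by positivity)
  refine ⟨δ0 / 2, by positivity, max X1 X2, fun X hX A hA hcard => ?_⟩
  have k1 := hX1 X (le_trans (le_max_left _ _) hX)
  have k2 := hX2 X (le_trans (le_max_right _ _) hX) A hA hcard
  obtain ⟨κ, hκ⟩ : ∃ κ : ℝ, κ = 1 / Wm X * ((Wm X : ℝ) / Nat.totient (Wm X)) ^ (k + 1) :=
    ⟨_, rfl⟩
  have hκ0 : 0 ≤ κ := by
    rw [hκ]
    positivity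
  have hT : ∀ T ∈ A.powersetCard (k + 1), (1 - s) * (κ * gW X T) ≤ Pool.Agent.H387R2.Uni.CT T ∧
      Pool.Agent.H387R2.Uni.CT T ≤ (1 + s) * (κ * gW X T) := by
    intro T hT
    rw [mem_powersetCard] at hT
    have h1 := k1 T hT.2 fun a ha => hA a (hT.1 ha)
    have h2 : (gW X T : ℝ) / Wm X * ((Wm X : ℝ) / Nat.totient (Wm X)) ^ (k + 1) =
        κ * gW X T := by
      rw [hκ]
      ring
    rw [h2] at h1
    exact h1
  have hex : ∀ T : Finset ℕ, (gW X T : ℝ) * ex X (k + 1) =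
      κ * gW X T * (X / Real.log X ^ (k + 1)) := by
    intro T
    have h1 : (Wm X : ℝ) / (Nat.totient (Wm X) * Real.log X) =
        (Wm X : ℝ) / Nat.totient (Wm X) / Real.log X := by
      rw [div_div]
    unfold ex
    rw [hκ, h1, div_pow]
    ring
  have hCT0 : ∀ T : Finset ℕ, 0 ≤ Pool.Agent.H387R2.Uni.CT T := fun T =>
    Pool.Agent.H387R2.Uni.CT_nonneg T
  have hq1 : ((1 / 4 : ℝ)) ^ k ≤ 1 := pow_le_one₀ (by norm_num) (by norm_num)
  rcases le_or_gt (((1 / 4 : ℝ)) ^ k - ε) 0 with hq | hq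
  · refine le_trans (mul_nonpos_of_nonpos_of_nonneg hq (sum_nonneg fun T _ => hCT0 T)) ?_
    exact sum_nonneg fun T _ => hCT0 T
  have hsub : (A.powersetCard (k + 1)).filter (fun T =>
      δ0 * ((gW X T : ℝ) * ex X (k + 1)) ≤ (cT X T : ℝ)) ⊆
      (A.powersetCard (k + 1)).filter (fun T =>
      δ0 / 2 * (Pool.Agent.H387R2.Uni.CT T * (X / Real.log X ^ (k + 1))) ≤ (cT X T : ℝ)) := by
    intro T hT'
    rw [mem_filter] at hT' ⊢
    refine ⟨hT'.1, le_trans ?_ hT'.2⟩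
    rw [hex]
    have h1 := (hT T hT'.1).2
    have h2 : 0 ≤ (X : ℝ) / Real.log X ^ (k + 1) := by
      have : 0 ≤ Real.log X := Real.log_natCast_nonneg X
      positivity
    have h3 : 0 ≤ κ * (gW X T : ℝ) := by positivity
    have h4 : Pool.Agent.H387R2.Uni.CT T ≤ 2 * (κ * gW X T) := by nlinarith
    calc δ0 / 2 * (Pool.Agent.H387R2.Uni.CT T * (X / Real.log X ^ (k + 1))) ≤
        δ0 / 2 * ((2 * (κ * gW X T)) * (X / Real.log X ^ (k + 1))) := by gcongr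
      _ = _ := by ring
  have hS1 : ∑ T ∈ (A.powersetCard (k + 1)).filter (fun T =>
      δ0 * ((gW X T : ℝ) * ex X (k + 1)) ≤ (cT X T : ℝ)), Pool.Agent.H387R2.Uni.CT T ≤
      ∑ T ∈ (A.powersetCard (k + 1)).filter (fun T =>
      δ0 / 2 * (Pool.Agent.H387R2.Uni.CT T * (X / Real.log X ^ (k + 1))) ≤ (cT X T : ℝ)),
      Pool.Agent.H387R2.Uni.CT T :=
    sum_le_sum_of_subset_of_nonneg hsub fun T _ _ => hCT0 T
  have hS2 : (1 - s) * (κ * ∑ T ∈ (A.powersetCard (k + 1)).filter (fun T =>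
      δ0 * ((gW X T : ℝ) * ex X (k + 1)) ≤ (cT X T : ℝ)), (gW X T : ℝ)) ≤
      ∑ T ∈ (A.powersetCard (k + 1)).filter (fun T =>
      δ0 * ((gW X T : ℝ) * ex X (k + 1)) ≤ (cT X T : ℝ)), Pool.Agent.H387R2.Uni.CT T := by
    rw [mul_sum, mul_sum]
    exact sum_le_sum fun T hT' => (hT T (mem_filter.1 hT').1).1
  have hS3 : ∑ T ∈ A.powersetCard (k + 1), Pool.Agent.H387R2.Uni.CT T ≤
      (1 + s) * (κ * ∑ T ∈ A.powersetCard (k + 1), (gW X T : ℝ)) := by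
    rw [mul_sum, mul_sum]
    exact sum_le_sum fun T hT' => (hT T hT').2
  obtain ⟨G, hG⟩ : ∃ G : ℝ, G = ∑ T ∈ A.powersetCard (k + 1), (gW X T : ℝ) := ⟨_, rfl⟩
  have hG0 : 0 ≤ G := by
    rw [hG]
    positivity
  rw [← hG] at hS3 k2
  have hκG : 0 ≤ κ * G := mul_nonneg hκ0 hG0
  have h1 : (1 - s) * (κ * ((((1 / 4 : ℝ)) ^ k - ε / 2) * G)) ≤
      (1 - s) * (κ * ∑ T ∈ (A.powersetCard (k + 1)).filter (fun T =>
      δ0 * ((gW X T : ℝ) * ex X (k + 1)) ≤ (cT X T : ℝ)), (gW X T : ℝ)) := by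
    have h2 : 0 ≤ 1 - s := by linarith
    gcongr
  refine le_trans ?_ (h1.trans (hS2.trans hS1))
  calc (((1 / 4 : ℝ)) ^ k - ε) * ∑ T ∈ A.powersetCard (k + 1), Pool.Agent.H387R2.Uni.CT T ≤
      (((1 / 4 : ℝ)) ^ k - ε) * ((1 + s) * (κ * G)) := mul_le_mul_of_nonneg_left hS3 hq.le
    _ = ((((1 / 4 : ℝ)) ^ k - ε) * (1 + s)) * (κ * G) := by ring
    _ ≤ ((1 - s) * (((1 / 4 : ℝ)) ^ k - ε / 2)) * (κ * G) := by
        refine mul_le_mul_of_nonneg_right ?_ hκG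
        nlinarith
    _ = _ := by ring

end Pool.Agent.W880.HR
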